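import Mathlib

/-!
# A bounded disconnected Pareto solution set of a monotone vector variational inequality

The example: `n = 4`, `m = 2`, `K = {(s, v, p, r) : 0 ≤ s ≤ 1, 0 ≤ v ≤ 1, p ^ 2 ≤ r ≤ 1}` (compact and convex, not
polyhedral) and the affine monotone maps `F_1 (s, v, p, r) = (0, v, 0, 1)`,
`F_2 (s, v, p, r) = (v - 2 p, - s, 2 s - 4, 0)`. Every Pareto solution has `s = 0` or `s = 1`; the point `0` is a
Pareto solution (which is not proper), and so is `(1, 1, 1, 1)`.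
-/

set_option autoImplicit false

open scoped RealInnerProductSpace

namespace Pool.Agent.Results.MP_177738_an.CompactDisconnected

/-- The Pareto solution set of the vector variational inequality defined by `F_1, ..., F_m` on `K`: the points `x`
of `K` such that for no `y` in `K` the vector of the `⟪F_l x, x - y⟫` belongs to `ℝ ^ m_+ \ {0}`. -/
def Sol {n m : ℕ} (F : Fin m → EuclideanSpace ℝ (Fin n) → EuclideanSpace ℝ (Fin n))
    (K : Set (EuclideanSpace ℝ (Fin n))) : Set (EuclideanSpace ℝ (Fin n)) :=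
  {x | x ∈ K ∧ ∀ y ∈ K, ¬ ((∀ l, 0 ≤ ⟪F l x, x - y⟫) ∧ ∃ l, ⟪F l x, x - y⟫ ≠ 0)}

/-- `F_1, ..., F_m` are monotone on `K`. -/
def MonotoneOnSet {n m : ℕ} (F : Fin m → EuclideanSpace ℝ (Fin n) → EuclideanSpace ℝ (Fin n))
    (K : Set (EuclideanSpace ℝ (Fin n))) : Prop :=
  ∀ l, ∀ x ∈ K, ∀ y ∈ K, 0 ≤ ⟪F l y - F l x, y - x⟫

/-- the set of the example -/
def K4 : Set (EuclideanSpace ℝ (Fin 4)) :=
  {x | (0 ≤ x 0 ∧ x 0 ≤ 1) ∧ (0 ≤ x 1 ∧ x 1 ≤ 1) ∧ x 2 ^ 2 ≤ x 3 ∧ x 3 ≤ 1}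

/-- the maps of the example -/
noncomputable def F4 : Fin 2 → EuclideanSpace ℝ (Fin 4) → EuclideanSpace ℝ (Fin 4) :=
  fun l x => if l = 0 then !₂[0, x 1, 0, 1] else !₂[x 1 - 2 * x 2, - x 0, 2 * x 0 - 4, 0]

theorem inner4 (x y : EuclideanSpace ℝ (Fin 4)) :
    ⟪x, y⟫ = x 0 * y 0 + x 1 * y 1 + x 2 * y 2 + x 3 * y 3 := by
  simp [PiLp.inner_apply, Fin.sum_univ_four]
  ring

theorem in1 (x z : EuclideanSpace ℝ (Fin 4)) : ⟪F4 0 x, z⟫ = x 1 * z 1 + z 3 := by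
  rw [inner4]
  simp [F4]

theorem in2 (x z : EuclideanSpace ℝ (Fin 4)) :
    ⟪F4 1 x, z⟫ = (x 1 - 2 * x 2) * z 0 - x 0 * z 1 + (2 * x 0 - 4) * z 2 := by
  rw [inner4]
  simp [F4]
  ring

theorem closedK : IsClosed K4 := by
  have h : K4 = {x | 0 ≤ x 0} ∩ {x | x 0 ≤ 1} ∩ {x | 0 ≤ x 1} ∩ {x | x 1 ≤ 1} ∩ {x | x 2 ^ 2 ≤ x 3} ∩
      {x | x 3 ≤ 1} := by
    ext x
    simp only [K4, Set.mem_setOf_eq, Set.mem_inter_iff]
    tauto
  rw [h]
  refine IsClosed.inter (IsClosed.inter (IsClosed.inter (IsClosed.inter (IsClosed.inter ?_ ?_) ?_) ?_) ?_) ?_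
  · exact isClosed_le continuous_const (by fun_prop)
  · exact isClosed_le (by fun_prop) continuous_const
  · exact isClosed_le continuous_const (by fun_prop)
  · exact isClosed_le (by fun_prop) continuous_const
  · exact isClosed_le (by fun_prop) (by fun_prop)
  · exact isClosed_le (by fun_prop) continuous_const

theorem boundedK : Bornology.IsBounded K4 := by
  rw [isBounded_iff_forall_norm_le]
  refine ⟨2, fun x hx => ?_⟩
  obtain ⟨⟨h1, h2⟩, ⟨h3, h4⟩, h5, h6⟩ := hx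
  rw [EuclideanSpace.norm_eq, Real.sqrt_le_left (by norm_num)]
  simp only [Fin.sum_univ_four, Real.norm_eq_abs, sq_abs]
  have h7 : 0 ≤ x 3 := le_trans (sq_nonneg _) h5
  nlinarith

theorem convexK : Convex ℝ K4 := by
  intro x hx y hy a b ha hb hab
  obtain ⟨⟨h1, h2⟩, ⟨h3, h4⟩, h5, h6⟩ := hx
  obtain ⟨⟨g1, g2⟩, ⟨g3, g4⟩, g5, g6⟩ := hy
  have hb' : b = 1 - a := by linarith
  subst hb'
  simp only [K4, Set.mem_setOf_eq, PiLp.add_apply, PiLp.smul_apply, smul_eq_mul]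
  refine ⟨⟨by positivity, by nlinarith⟩, ⟨by positivity, by nlinarith⟩, ?_, by nlinarith⟩
  nlinarith [mul_nonneg (mul_nonneg ha hb) (sq_nonneg (x 2 - y 2)), mul_le_mul_of_nonneg_left h5 ha,
    mul_le_mul_of_nonneg_left g5 hb]

theorem mono : MonotoneOnSet F4 K4 := by
  intro l x _ y _
  rw [inner_sub_left]
  fin_cases l
  · show 0 ≤ ⟪F4 0 y, y - x⟫ - ⟪F4 0 x, y - x⟫
    rw [in1, in1]
    simp only [PiLp.sub_apply]
    nlinarith [sq_nonneg (y 1 - x 1)]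
  · show 0 ≤ ⟪F4 1 y, y - x⟫ - ⟪F4 1 x, y - x⟫
    rw [in2, in2]
    simp only [PiLp.sub_apply]
    apply le_of_eq
    ring

/-- domination by a point `y` -/
theorem not_sol {x y : EuclideanSpace ℝ (Fin 4)} (hy : y ∈ K4) (h1 : 0 ≤ ⟪F4 0 x, x - y⟫)
    (h2 : 0 < ⟪F4 1 x, x - y⟫) : x ∉ Sol F4 K4 := by
  intro h
  refine h.2 y hy ⟨?_, 1, h2.ne'⟩
  intro l
  fin_cases l
  · exact h1
  · exact h2.le

theorem sol_cases {x : EuclideanSpace ℝ (Fin 4)} (hx : x ∈ Sol F4 K4) : x 0 = 0 ∨ x 0 = 1 := by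
  by_contra hc
  push Not at hc
  obtain ⟨⟨h1, h2⟩, ⟨h3, h4⟩, h5, h6⟩ := hx.1
  have h1' : 0 < x 0 := lt_of_le_of_ne h1 (Ne.symm hc.1)
  have h2' : x 0 < 1 := lt_of_le_of_ne h2 hc.2
  -- `v = 2 p`
  have hv : x 1 = 2 * x 2 := by
    by_contra hne
    rcases lt_or_gt_of_ne hne with hlt | hgt
    · -- increase `s`
      refine not_sol (y := !₂[1, x 1, x 2, x 3]) ?_ ?_ ?_ hx
      · simp [K4, h3, h4, h5, h6]
      · rw [in1]; simp
      · rw [in2]; simp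
        nlinarith
    · refine not_sol (y := !₂[0, x 1, x 2, x 3]) ?_ ?_ ?_ hx
      · simp [K4, h3, h4, h5, h6]
      · rw [in1]; simp
      · rw [in2]; simp
        nlinarith
  have hp0 : 0 ≤ x 2 := by linarith
  rcases eq_or_lt_of_le hp0 with hp | hp
  · -- `p = v = 0`
    have hv0 : x 1 = 0 := by rw [hv, ← hp]; ring
    refine not_sol (y := !₂[x 0, 1, x 2, x 3]) ?_ ?_ ?_ hx
    · simp [K4, h1, h2, h5, h6]
    · rw [in1]; simp [hv0]
    · rw [in2]; simp [hv0]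
      exact h1'
  rcases eq_or_lt_of_le h5 with hr | hr
  · -- on the boundary: move along the parabola, keeping `⟪F_1, ·⟫` fixed
    have hp1 : x 2 ≤ 1 / 2 := by linarith
    obtain ⟨δ, hδ0, hδ1, hδ2⟩ : ∃ δ : ℝ, 0 < δ ∧ δ ≤ x 2 / 4 ∧ δ ≤ 1 / 4 := by
      exact ⟨min (x 2 / 4) (1 / 4), by positivity, min_le_left _ _, min_le_right _ _⟩
    set τ : ℝ := δ + δ ^ 2 / (2 * x 2) with hτ
    have hτ1 : 2 * x 2 * τ = 2 * x 2 * δ + δ ^ 2 := by rw [hτ]; field_simp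
    have hτ0 : 0 < τ := by positivity
    have hτ2 : τ ≤ 9 / 8 * δ := by
      have : δ ^ 2 / (2 * x 2) ≤ δ / 8 := by
        rw [div_le_iff₀ (by positivity)]
        nlinarith
      linarith
    refine not_sol (y := !₂[x 0, x 1 - τ, x 2 + δ, (x 2 + δ) ^ 2]) ?_ ?_ ?_ hx
    · simp only [K4, Set.mem_setOf_eq, PiLp.toLp_apply, Matrix.cons_val_zero, Matrix.cons_val_one, Matrix.cons_val]
      refine ⟨⟨h1, h2⟩, ⟨by nlinarith, by linarith⟩, le_refl _, by nlinarith⟩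
    · rw [in1]; simp
      nlinarith
    · rw [in2]; simp
      nlinarith
  · -- room above the parabola: increase `p`
    obtain ⟨δ, hδ0, hδ1⟩ : ∃ δ : ℝ, 0 < δ ∧ (x 2 + δ) ^ 2 ≤ x 3 := by
      refine ⟨√(x 3) - x 2, ?_, ?_⟩
      · have : x 2 < √(x 3) := by
          rw [Real.lt_sqrt hp0]; exact hr
        linarith
      · have : x 2 + (√(x 3) - x 2) = √(x 3) := by ring
        rw [this, Real.sq_sqrt (le_trans (sq_nonneg _) h5)]
    refine not_sol (y := !₂[x 0, x 1, x 2 + δ, x 3]) ?_ ?_ ?_ hx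
    · simp [K4, h1, h2, h3, h4, hδ1, h6]
    · rw [in1]; simp
    · rw [in2]; simp
      nlinarith

theorem zero_mem : (0 : EuclideanSpace ℝ (Fin 4)) ∈ Sol F4 K4 := by
  refine ⟨by simp [K4], ?_⟩
  intro y hy h
  obtain ⟨⟨h1, h2⟩, ⟨h3, h4⟩, h5, h6⟩ := hy
  have e1 := h.1 0
  rw [in1] at e1
  simp at e1
  have h3' : y 3 = 0 := le_antisymm (by linarith) (le_trans (sq_nonneg _) h5)
  have h2' : y 2 = 0 := by
    rw [h3'] at h5
    exact pow_eq_zero_iff (two_ne_zero) |>.mp (le_antisymm h5 (sq_nonneg _))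
  obtain ⟨l, hl⟩ := h.2
  apply hl
  fin_cases l
  · show ⟪F4 0 0, 0 - y⟫ = 0
    rw [in1]; simp [h3']
  · show ⟪F4 1 0, 0 - y⟫ = 0
    rw [in2]; simp [h2']

theorem one_mem : (!₂[1, 1, 1, 1] : EuclideanSpace ℝ (Fin 4)) ∈ Sol F4 K4 := by
  refine ⟨by simp [K4], ?_⟩
  intro y hy h
  obtain ⟨⟨h1, h2⟩, ⟨h3, h4⟩, h5, h6⟩ := hy
  have e1 := h.1 0
  have e2 := h.1 1
  have f1 := in1 (!₂[1, 1, 1, 1]) (!₂[1, 1, 1, 1] - y)
  have f2 := in2 (!₂[1, 1, 1, 1]) (!₂[1, 1, 1, 1] - y)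
  simp at f1 f2
  rw [f1] at e1
  rw [f2] at e2
  have h7 : (y 2) ^ 2 ≤ 1 := by linarith
  have h8 : y 2 ≤ 1 := by nlinarith
  obtain ⟨l, hl⟩ := h.2
  apply hl
  -- `⟪F_1 + F_2, x - y⟫ ≤ 0`
  have key : (1 - y 1 + (1 - y 3)) + ((1 - 2) * (1 - y 0) - (1 - y 1) + (2 - 4) * (1 - y 2)) ≤ 0 := by
    nlinarith
  fin_cases l
  · show ⟪F4 0 _, _⟫ = 0
    rw [f1]; nlinarith
  · show ⟪F4 1 _, _⟫ = 0
    rw [f2]; nlinarith

/-- There are a compact convex set `K` and affine monotone maps `F_1, F_2` for which the Pareto solution set of the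
vector variational inequality is nonempty, bounded and disconnected. -/
theorem result : ∃ (n m : ℕ) (K : Set (EuclideanSpace ℝ (Fin n)))
    (F : Fin m → EuclideanSpace ℝ (Fin n) → EuclideanSpace ℝ (Fin n)),
    K.Nonempty ∧ IsClosed K ∧ Convex ℝ K ∧ IsCompact K ∧ (∀ l, ContinuousOn (F l) K) ∧ MonotoneOnSet F K ∧
    (∀ l, ∃ (A : EuclideanSpace ℝ (Fin n) →L[ℝ] EuclideanSpace ℝ (Fin n)) (c : EuclideanSpace ℝ (Fin n)),
      ∀ x, F l x = A x + c) ∧
    (Sol F K).Nonempty ∧ Bornology.IsBounded (Sol F K) ∧ ¬ IsPreconnected (Sol F K) := by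
  refine ⟨4, 2, K4, F4, ⟨0, zero_mem.1⟩, closedK, convexK, ?_, ?_, mono, ?_, ⟨0, zero_mem⟩, ?_, ?_⟩
  · exact Metric.isCompact_of_isClosed_isBounded closedK boundedK
  · intro l
    apply Continuous.continuousOn
    fin_cases l
    · show Continuous (fun x : EuclideanSpace ℝ (Fin 4) => (!₂[0, x 1, 0, 1] : EuclideanSpace ℝ (Fin 4)))
      apply (PiLp.continuous_toLp 2 _).comp
      apply continuous_pi
      intro i
      fin_cases i <;> simp <;> fun_prop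
    · show Continuous (fun x : EuclideanSpace ℝ (Fin 4) =>
        (!₂[x 1 - 2 * x 2, - x 0, 2 * x 0 - 4, 0] : EuclideanSpace ℝ (Fin 4)))
      apply (PiLp.continuous_toLp 2 _).comp
      apply continuous_pi
      intro i
      fin_cases i <;> simp <;> fun_prop
  · intro l
    fin_cases l
    · let A : EuclideanSpace ℝ (Fin 4) →ₗ[ℝ] EuclideanSpace ℝ (Fin 4) :=
        { toFun := fun x => !₂[0, x 1, 0, 0]
          map_add' := by intro x y; ext i; fin_cases i <;> simp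
          map_smul' := by intro c x; ext i; fin_cases i <;> simp }
      refine ⟨A.toContinuousLinearMap, !₂[0, 0, 0, 1], fun x => ?_⟩
      ext i
      fin_cases i <;> simp [F4, A]
    · let A : EuclideanSpace ℝ (Fin 4) →ₗ[ℝ] EuclideanSpace ℝ (Fin 4) :=
        { toFun := fun x => !₂[x 1 - 2 * x 2, - x 0, 2 * x 0, 0]
          map_add' := by intro x y; ext i; fin_cases i <;> simp <;> ring
          map_smul' := by intro c x; ext i; fin_cases i <;> simp <;> ring }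
      refine ⟨A.toContinuousLinearMap, !₂[0, 0, -4, 0], fun x => ?_⟩
      ext i
      fin_cases i <;> simp [F4, A] <;> ring
  · exact boundedK.subset (fun x hx => hx.1)
  · intro hpre
    have h1 := hpre.image (fun x => x 0) (by fun_prop : Continuous fun x : EuclideanSpace ℝ (Fin 4) => x 0).continuousOn
    have h2 := h1.ordConnected
    have h3 : (0 : ℝ) ∈ (fun x : EuclideanSpace ℝ (Fin 4) => x 0) '' Sol F4 K4 := ⟨0, zero_mem, by simp⟩
    have h4 : (1 : ℝ) ∈ (fun x : EuclideanSpace ℝ (Fin 4) => x 0) '' Sol F4 K4 := ⟨_, one_mem, by simp⟩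
    obtain ⟨x, hx, hx0⟩ := h2.out h3 h4 (show (1 / 2 : ℝ) ∈ Set.Icc 0 1 by constructor <;> norm_num)
    rcases sol_cases hx with h | h <;> simp only at hx0 <;> rw [h] at hx0 <;> norm_num at hx0

end Pool.Agent.Results.MP_177738_an.CompactDisconnected
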